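import Pool.Agent.SGP51.Defs

/-!
# Sun's Goldbach problem with a Legendre symbol condition: the last step

First moment, second moment and the automatic condition give a positive proportion.
-/

set_option autoImplicit false

open Finset

namespace Pool.Agent.SGP20

open Pool.Agent.ANT Pool.Agent.SqSig Pool.Agent.SGP51

/-! ### the automatic condition -/

theorem two_ne {n l : ℕ} [hl : Fact l.Prime] (h : l ∣ 2 * n + 1) : (2 : ZMod l) ≠ 0 := by
  intro h2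
  have h3 : ((2 * n + 1 : ℕ) : ZMod l) = 0 := (ZMod.natCast_eq_zero_iff _ _).2 h
  push_cast at h3
  rw [h2, zero_mul, zero_add] at h3
  exact one_ne_zero h3

/-- If `p + 9 (q + 1)` is a square, Sun's condition is automatic. -/
theorem auto9 {p q s n : ℕ} (hp : p.Prime) (hq : q.Prime) (hq2 : q ≠ 2) (hqp : q ≤ p)
    (hs : p + 9 * (q + 1) = s ^ 2) (hn : 2 * n = p + q) (l : ℕ) [hl : Fact l.Prime]
    (h : l ∣ 2 * n + 1) : legendreSym l (((q + 1) / 2 : ℕ) : ℤ) = 1 := by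
  obtain ⟨u, hu⟩ : ∃ u, q = 2 * u + 1 := hq.odd_of_ne_two hq2
  have h1 : (q + 1) / 2 = u + 1 := by omega
  have hq3 : 3 ≤ q := by
    have := hq.two_le
    omega
  have h2 := two_ne h
  have h3 : ((2 * n + 1 : ℕ) : ZMod l) = 0 := (ZMod.natCast_eq_zero_iff _ _).2 h
  have h4 : (p : ZMod l) = -(2 * ((u : ZMod l) + 1)) := by
    have h5 : 2 * n + 1 = p + 2 * (u + 1) := by omega
    rw [h5] at h3
    push_cast at h3
    linear_combination h3
  have h5 : (s : ZMod l) ^ 2 = 4 ^ 2 * ((u : ZMod l) + 1) := by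
    have h6 : ((s ^ 2 : ℕ) : ZMod l) = ((p + 9 * (q + 1) : ℕ) : ZMod l) := by rw [hs]
    push_cast at h6
    rw [h6, h4, hu]
    push_cast
    ring
  have h6 : ((u : ZMod l) + 1) ≠ 0 := by
    intro h0
    have h7 : l ∣ u + 1 := by
      rw [← ZMod.natCast_eq_zero_iff]
      push_cast
      exact h0
    have h8 : l ∣ p := by
      rw [← ZMod.natCast_eq_zero_iff, h4, h0]
      simp
    have h9 : l = p := (Nat.prime_dvd_prime_iff_eq hl.out hp).1 h8
    have h10 : p ≤ u + 1 := h9 ▸ Nat.le_of_dvd (Nat.succ_pos u) h7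
    omega
  have h40 : (4 : ZMod l) ≠ 0 := by
    have : (4 : ZMod l) = 2 * 2 := by norm_num
    rw [this]
    exact mul_ne_zero h2 h2
  have hs0 : (s : ZMod l) ≠ 0 := by
    intro h0
    rw [h0, zero_pow two_ne_zero] at h5
    exact (mul_ne_zero (pow_ne_zero 2 h40) h6) h5.symm
  have h7 : legendreSym l ((4 : ℤ) ^ 2 * ((u + 1 : ℕ) : ℤ)) = legendreSym l ((s : ℤ) ^ 2) := by
    unfold legendreSym
    have : (((4 : ℤ) ^ 2 * ((u + 1 : ℕ) : ℤ) : ℤ) : ZMod l) = (((s : ℤ) ^ 2 : ℤ) : ZMod l) := by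
      push_cast
      rw [h5]
      ring
    rw [this]
  have h8 : legendreSym l ((s : ℤ) ^ 2) = 1 := legendreSym.sq_one' l (by push_cast; exact hs0)
  rw [legendreSym.mul, legendreSym.sq_one' l (by push_cast; exact h40), one_mul, h8] at h7
  rw [h1]
  exact h7

/-- The conclusion of the question for `n`, with the given `q`. -/
def Good (n q : ℕ) : Prop :=
  q.Prime ∧ (2 * n - q).Prime ∧ q ≤ n ∧
    ∀ (l : ℕ) [Fact l.Prime], l ∣ 2 * n + 1 → legendreSym l (((q + 1) / 2 : ℕ) : ℤ) = 1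

theorem Tr_spec (a : ℕ) : 8 * Tr a + 1 = (2 * a + 1) ^ 2 := by
  have h : 2 * Tr a = a * (a + 1) := by
    unfold Tr
    exact Nat.two_mul_div_two_of_even (Nat.even_mul_succ_self a)
  nlinarith

theorem Tr_inj {a b : ℕ} (h : Tr a = Tr b) : a = b := by
  have h1 := Tr_spec a
  have h2 := Tr_spec b
  rw [h, h2] at h1
  have h3 := Nat.pow_left_injective (by norm_num : (2:ℕ) ≠ 0) h1
  have h4 : 2 * b + 1 = 2 * a + 1 := h3
  omega

theorem mem_Ra {S m a : ℕ} : a ∈ Ra S m ↔ (0 < a ∧ a ≤ S) ∧ m + 1 < Tr a ∧ Tr a < 9 * m + 1 ∧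
    (Tr a - 1 - m).Prime ∧ (9 * m + 1 - Tr a).Prime := by
  unfold Ra
  rw [mem_filter, mem_Ioc]

/-- the part of `Ra` with `q ≤ n` -/
def Rb (S m : ℕ) : Finset ℕ := (Ra S m).filter (fun a => Tr a ≤ 5 * m + 1)

theorem good_of_mem {S m a : ℕ} (ha : a ∈ Rb S m) : Good (4 * m) (Tr a - 1 - m) := by
  unfold Rb at ha
  rw [mem_filter, mem_Ra] at ha
  obtain ⟨⟨⟨h1, h2⟩, h3, h4, h5, h6⟩, h7⟩ := ha
  have e1 : 2 * (4 * m) - (Tr a - 1 - m) = 9 * m + 1 - Tr a := by omega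
  refine ⟨h5, by rw [e1]; exact h6, by omega, fun l _ hl => ?_⟩
  have hq2 : Tr a - 1 - m ≠ 2 := by
    intro h8
    have h9 : 9 * m + 1 - Tr a = 2 * (4 * m - 1) := by omega
    rw [h9] at h6
    have h10 := (Nat.prime_dvd_prime_iff_eq Nat.prime_two h6).1 (Dvd.intro _ rfl)
    omega
  have hsp := Tr_spec a
  exact auto9 (p := 9 * m + 1 - Tr a) (q := Tr a - 1 - m) (s := 2 * a + 1) (n := 4 * m) h6 h5 hq2
    (by omega) (by omega) (by omega) l hl

theorem card_Rb_le (S m : ℕ) : (Rb S m).card ≤ Nat.card {q : ℕ // Good (4 * m) q} := by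
  have hfin : {q : ℕ | Good (4 * m) q}.Finite :=
    (Set.finite_Iic (4 * m)).subset fun q hq => hq.2.2.1
  have h1 : Nat.card {q : ℕ // Good (4 * m) q} = {q : ℕ | Good (4 * m) q}.ncard := rfl
  rw [h1, ← Set.ncard_coe_finset]
  refine Set.ncard_le_ncard_of_injOn (fun a => Tr a - 1 - m) (fun a ha => good_of_mem ha) ?_ hfin
  intro a ha b hb hab
  rw [mem_coe] at ha hb
  unfold Rb at ha hb
  rw [mem_filter, mem_Ra] at ha hb
  have h2 : Tr a - 1 - m = Tr b - 1 - m := hab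
  exact Tr_inj (by omega)

/-! ### the first moment in terms of `Rb` -/

theorem card_Pq_le {S : ℕ} (hS : 100 ≤ S) :
    (Pq S).card ≤ ∑ m ∈ range (2 * S ^ 2), (Rb S m).card := by
  rw [← card_sigma]
  have key : ∀ t ∈ Pq S, t.1 = 2 * (t.1 / 2) + 1 ∧ t.2 + 1 ≤ Tr (t.1 / 2) ∧
      Tr (t.1 / 2) - 1 - t.2 < 2 * S ^ 2 ∧ t.1 / 2 ∈ Rb S (Tr (t.1 / 2) - 1 - t.2) := by
    rintro ⟨r, q⟩ ht
    unfold Pq at ht
    rw [mem_filter, mem_product, mem_Ioc, mem_Ioc] at ht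
    obtain ⟨⟨⟨h1, h2⟩, h3, h4⟩, h5, h6, h7⟩ := ht
    unfold QQ at h4
    simp only at h1 h2 h3 h4 h5 h6 h7 ⊢
    have hSS : 10000 ≤ S ^ 2 := by nlinarith
    have hr1 : S ^ 2 < 4 * r ^ 2 := by
      have h8 : S < 2 * r := by omega
      have h9 : S ^ 2 < (2 * r) ^ 2 := Nat.pow_lt_pow_left h8 two_ne_zero
      rw [mul_pow] at h9
      exact h9
    have hr2 : r ^ 2 ≤ S ^ 2 := Nat.pow_le_pow_left h2 2
    have hq2 := h5.two_le
    obtain ⟨u, hu⟩ : ∃ u, q = 2 * u + 1 := h5.odd_of_ne_two h7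
    obtain ⟨v, hv⟩ : ∃ v, r ^ 2 - 9 * (q + 1) = 2 * v + 1 := h6.odd_of_ne_two (by omega)
    have hodd : Odd r := by
      by_contra hcon
      rw [Nat.not_odd_iff_even] at hcon
      obtain ⟨w, hw⟩ := hcon
      have : r ^ 2 = 2 * (2 * w ^ 2) := by rw [hw]; ring
      omega
    obtain ⟨a, ha⟩ := hodd
    have ha2 : r / 2 = a := by omega
    rw [ha2]
    have hsp := Tr_spec a
    rw [← ha] at hsp
    refine ⟨ha, by omega, by omega, ?_⟩
    unfold Rb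
    rw [mem_filter, mem_Ra]
    have e1 : Tr a - 1 - (Tr a - 1 - q) = q := by omega
    have e2 : 9 * (Tr a - 1 - q) + 1 - Tr a = r ^ 2 - 9 * (q + 1) := by omega
    rw [e1, e2]
    exact ⟨⟨⟨by omega, by omega⟩, by omega, by omega, h5, h6⟩, by omega⟩
  refine card_le_card_of_injOn (fun t => ⟨Tr (t.1 / 2) - 1 - t.2, t.1 / 2⟩) ?_ ?_
  · intro t ht
    obtain ⟨_, _, h3, h4⟩ := key t ht
    rw [mem_coe, mem_sigma, mem_range]
    exact ⟨h3, h4⟩
  · intro t ht t' ht' h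
    obtain ⟨h1, h2, _, _⟩ := key t ht
    obtain ⟨h1', h2', _, _⟩ := key t' ht'
    simp only [Sigma.mk.injEq, heq_eq_eq] at h
    obtain ⟨h5, h6⟩ := h
    have h7 : t.1 = t'.1 := by omega
    rw [h6] at h5 h2
    exact Prod.ext h7 (by omega)

/-! ### positive proportion -/

/-- **Positive proportion, in terms of `S`.** -/
theorem prop_S
    (h1 : ∃ c : ℝ, 0 < c ∧ ∀ᶠ S : ℕ in Filter.atTop,
      c * (S:ℝ) ^ 3 / LL (S ^ 2) ^ 2 ≤ (Pq S).card)
    (h2 : ∃ C : ℝ, 0 < C ∧ ∀ᶠ S : ℕ in Filter.atTop,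
      ∑ m ∈ range (2 * S ^ 2), ((Ra S m).card : ℝ) ^ 2 ≤ C * (S:ℝ) ^ 4 / Real.log S ^ 4) :
    ∃ c : ℝ, 0 < c ∧ ∀ᶠ S : ℕ in Filter.atTop,
    c * (S:ℝ) ^ 2 ≤ (((range (2 * S ^ 2)).filter
      (fun m => c * S / Real.log S ^ 2 ≤ ((Rb S m).card : ℝ))).card : ℝ) := by
  obtain ⟨c₁, hc₁, h1⟩ := h1
  obtain ⟨C, hC, h2⟩ := h2
  set c : ℝ := min (c₁ / 36) (c₁ ^ 2 / (324 * C)) with hc
  have hc0 : 0 < c := lt_min (by positivity) (by positivity)
  refine ⟨c, hc0, ?_⟩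
  have e1 : ∀ᶠ S : ℕ in Filter.atTop, 1 ≤ Real.log S :=
    (Real.tendsto_log_atTop.comp tendsto_natCast_atTop_atTop).eventually_ge_atTop 1
  filter_upwards [h1, h2, e1, Filter.eventually_ge_atTop 100] with S f1 f2 f3 f4
  have hSR : (100:ℝ) ≤ S := by exact_mod_cast f4
  have hS0 : (0:ℝ) < S := by linarith
  set l := Real.log (S:ℝ) with hl
  have hl0 : 0 < l := by linarith
  have hLL : LL (S ^ 2) ≤ 3 * l := by
    unfold LL
    push_cast
    rw [Real.log_pow]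
    push_cast
    linarith
  have hLL1 := one_le_LL (S ^ 2)
  set A : ℝ := c₁ * (S:ℝ) ^ 3 / (9 * l ^ 2) with hA
  have g1 : A ≤ ∑ m ∈ range (2 * S ^ 2), ((Rb S m).card : ℝ) := by
    have k1 : ((Pq S).card : ℝ) ≤ ∑ m ∈ range (2 * S ^ 2), ((Rb S m).card : ℝ) := by
      exact_mod_cast card_Pq_le f4
    refine le_trans ?_ (f1.trans k1)
    rw [hA]
    apply div_le_div_of_nonneg_left (by positivity) (by positivity)
    have : LL (S ^ 2) ^ 2 ≤ (3 * l) ^ 2 := pow_le_pow_left₀ (by linarith) hLL 2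
    nlinarith
  have g0 : ∑ m ∈ range (2 * S ^ 2), ((Rb S m).card : ℝ) ^ 2 ≤ C * (S:ℝ) ^ 4 / l ^ 4 := by
    refine le_trans (sum_le_sum fun m _ => ?_) f2
    have : ((Rb S m).card : ℝ) ≤ ((Ra S m).card : ℝ) := by
      exact_mod_cast card_le_card (filter_subset _ _)
    exact pow_le_pow_left₀ (Nat.cast_nonneg _) this 2
  set t : ℝ := c₁ * S / (36 * l ^ 2) with ht
  have g2 := cs_threshold (range (2 * S ^ 2)) (fun m => ((Rb S m).card : ℝ)) t A
    (C * (S:ℝ) ^ 4 / l ^ 4) (fun _ _ => Nat.cast_nonneg _) (by positivity)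
    (by
      rw [card_range, ht, hA]
      push_cast
      have : 2 * (2 * (S:ℝ) ^ 2 * (c₁ * S / (36 * l ^ 2))) = c₁ * (S:ℝ) ^ 3 / (9 * l ^ 2) := by
        field_simp; norm_num
      rw [this]) g1 g0 (by positivity) (by positivity)
  have g3 : A ^ 2 / (4 * (C * (S:ℝ) ^ 4 / l ^ 4)) = c₁ ^ 2 / (324 * C) * S ^ 2 := by
    rw [hA]; field_simp; norm_num
  rw [g3] at g2
  have g4 : c * (S:ℝ) ^ 2 ≤ c₁ ^ 2 / (324 * C) * S ^ 2 :=
    mul_le_mul_of_nonneg_right (min_le_right _ _) (by positivity)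
  refine g4.trans (g2.trans ?_)
  have g5 : (range (2 * S ^ 2)).filter (fun m => t ≤ ((Rb S m).card : ℝ)) ⊆
      (range (2 * S ^ 2)).filter (fun m => c * S / l ^ 2 ≤ ((Rb S m).card : ℝ)) := by
    intro m hm
    rw [mem_filter] at hm ⊢
    refine ⟨hm.1, le_trans ?_ hm.2⟩
    have : t = c₁ / 36 * S / l ^ 2 := by rw [ht]; field_simp
    rw [this]
    have k2 : c ≤ c₁ / 36 := min_le_left _ _
    gcongr
  exact_mod_cast card_le_card g5

/-- **Main theorem**, from the two moments. -/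
theorem main
    (h1 : ∃ c : ℝ, 0 < c ∧ ∀ᶠ S : ℕ in Filter.atTop,
      c * (S:ℝ) ^ 3 / LL (S ^ 2) ^ 2 ≤ (Pq S).card)
    (h2 : ∃ C : ℝ, 0 < C ∧ ∀ᶠ S : ℕ in Filter.atTop,
      ∑ m ∈ range (2 * S ^ 2), ((Ra S m).card : ℝ) ^ 2 ≤ C * (S:ℝ) ^ 4 / Real.log S ^ 4) :
    ∃ c : ℝ, 0 < c ∧ ∃ N₀ : ℕ, ∀ N : ℕ, N₀ ≤ N →
    c * N ≤ (((Icc 1 N).filter (fun n : ℕ => c * Real.sqrt N / Real.log N ^ 2 ≤
      (Nat.card {q : ℕ // Good n q} : ℝ))).card : ℝ) := by
  classical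
  obtain ⟨c, hc, h⟩ := prop_S h1 h2
  obtain ⟨S0, hS0⟩ := Filter.eventually_atTop.mp h
  refine ⟨c / 16, by positivity, 8 * (S0 + 10) ^ 2 + 100, fun N hN => ?_⟩
  set S := Nat.sqrt (N / 8) with hS
  have hS2 : S ^ 2 ≤ N / 8 := Nat.sqrt_le' _
  have hSlt : N / 8 < (S + 1) ^ 2 := Nat.lt_succ_sqrt' _
  have hSN : 8 * S ^ 2 ≤ N := by omega
  have hSge : S0 + 10 ≤ S := by
    rw [hS, Nat.le_sqrt']
    omega
  have h1 := hS0 S (by omega)
  have hS7 : 7 ≤ S := by omega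
  have hSR : (7:ℝ) ≤ S := by exact_mod_cast hS7
  have hN4 : N < 16 * S ^ 2 := by
    have k1 : N < 8 * (S + 1) ^ 2 := by omega
    nlinarith
  have hN4R : (N:ℝ) < 16 * (S:ℝ) ^ 2 := by exact_mod_cast hN4
  have hlS : 1 ≤ Real.log S := by
    rw [Real.le_log_iff_exp_le (by linarith)]
    have := Real.exp_one_lt_d9
    linarith
  have hlSN : Real.log S ≤ Real.log N := by
    refine Real.log_le_log (by linarith) ?_
    have : S ≤ N := by nlinarith
    exact_mod_cast this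
  have hsqrt : Real.sqrt N ≤ 4 * S := by
    rw [Real.sqrt_le_left (by positivity)]
    nlinarith
  have h2 : c / 16 * N ≤ c * (S:ℝ) ^ 2 := by nlinarith
  refine h2.trans (h1.trans ?_)
  have h3 : ((range (2 * S ^ 2)).filter
      (fun m => c * S / Real.log S ^ 2 ≤ ((Rb S m).card : ℝ))).card ≤
      ((Icc 1 N).filter (fun n : ℕ => c / 16 * Real.sqrt N / Real.log N ^ 2 ≤
        (Nat.card {q : ℕ // Good n q} : ℝ))).card := by
    refine card_le_card_of_injOn (fun m => 4 * m) ?_ ?_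
    · intro m hm
      rw [mem_coe] at hm
      obtain ⟨hm1, hm2⟩ := mem_filter.mp hm
      rw [mem_range] at hm1
      have hpos : (0:ℝ) < (Rb S m).card := lt_of_lt_of_le (by positivity) hm2
      have hpos' : 0 < (Rb S m).card := by exact_mod_cast hpos
      obtain ⟨a, ha⟩ := card_pos.mp hpos'
      unfold Rb at ha
      rw [mem_filter, mem_Ra] at ha
      obtain ⟨⟨_, h5, h6, _⟩, _⟩ := ha
      rw [mem_coe, mem_filter, mem_Icc]
      show (1 ≤ 4 * m ∧ 4 * m ≤ N) ∧ _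
      refine ⟨⟨by omega, by omega⟩, ?_⟩
      have h4 : ((Rb S m).card : ℝ) ≤ (Nat.card {q : ℕ // Good (4 * m) q} : ℝ) := by
        exact_mod_cast card_Rb_le S m
      refine le_trans ?_ (hm2.trans h4)
      have h5 : c / 16 * Real.sqrt N ≤ c * S := by nlinarith
      have h6 : Real.log S ^ 2 ≤ Real.log N ^ 2 := pow_le_pow_left₀ (by linarith) hlSN 2
      exact div_le_div₀ (by positivity) h5 (by positivity) h6
    · intro a _ b _ hab
      have : 4 * a = 4 * b := hab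
      omega
  exact_mod_cast h3

end Pool.Agent.SGP20
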